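import Pool.Agent.H30.VM.TargetsG
import Pool.Agent.H64.CI.FET

/-!
# FET: generic families have no operators with symbol zero (MP_70ba79_ag, log complete
intersections in projective space)

A copy of Pool/Agent/H64/CI/FET.lean; unknowns: all entries of `A` and the `l i`, `i ≠ i₀`.
-/

set_option autoImplicit false

namespace Pool.Agent.H25.VMP

open MvPolynomial SC Pool.Agent.H27.LV Pool.Agent.H17.VG Pool.Agent.H30.VM
open Pool.Agent.H17.CI (frmT Tup)
open Pool.Agent.H64.CI (re coeff_fr entry EE EE_homog)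

section
variable {n : ℕ} {ι : Type} [Fintype ι] [DecidableEq ι] {e : ι → ℕ}

/-- the matrix of the linear map -/
noncomputable def MB (n : ℕ) (e : ι → ℕ) (i₀ : ι) :
    Matrix (Σ i, Mon (n + 1) (e i + 1)) ((Fin (n + 1) × Fin (n + 1)) ⊕ {i : ι // i ≠ i₀})
      (MvPolynomial (Σ i, Mon (n + 1) (e i + 1)) ℚ) :=
  Matrix.of fun r s => match s with
    | Sum.inl p => ∑ f', X ⟨r.1, f'⟩ * C (re p.1 p.2 r.2 f')
    | Sum.inr i => if r.1 = i.1 then X r else 0

/-- the matrix of the unknowns -/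
def Bu {L : Type} [Field L] {i₀ : ι}
    (u : (Fin (n + 1) × Fin (n + 1)) ⊕ {i : ι // i ≠ i₀} → L) :
    Matrix (Fin (n + 1)) (Fin (n + 1)) L :=
  fun a b => u (Sum.inl (a, b))

/-- the scalings -/
noncomputable def lu {L : Type} [Field L] {i₀ : ι}
    (u : (Fin (n + 1) × Fin (n + 1)) ⊕ {i : ι // i ≠ i₀} → L) (i : ι) : L :=
  if h : i = i₀ then 0 else u (Sum.inr ⟨i, h⟩)

theorem EE_coeff {L : Type} [Field L] [CharZero L] (i₀ : ι)
    (c : (Σ i, Mon (n + 1) (e i + 1)) → L)
    (u : (Fin (n + 1) × Fin (n + 1)) ⊕ {i : ι // i ≠ i₀} → L)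
    (r : Σ i, Mon (n + 1) (e i + 1)) :
    coeff (fs r.2.1) (EE c (Bu u) (lu u) r.1) =
      (((MB n e i₀).map (aeval c)).mulVec u) r := by
  rw [Matrix.mulVec, dotProduct, Fintype.sum_sum_type, Fintype.sum_prod_type]
  unfold EE
  rw [coeff_add, coeff_C_mul, coeff_sum]
  congr 1
  · refine Finset.sum_congr rfl fun a _ => ?_
    rw [Finset.sum_mul, coeff_sum]
    refine Finset.sum_congr rfl fun b _ => ?_
    have h1 : (Bu u : Matrix _ _ L) a b = u (Sum.inl (a, b)) := rfl
    rw [h1, mul_assoc, coeff_C_mul]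
    have h2 : coeff (fs r.2.1) (X b * pderiv a (frmT c r.1)) =
        ∑ f', c ⟨r.1, f'⟩ * algebraMap ℚ L (re a b r.2 f') := entry _ _ _ _
    rw [h2, mul_comm]
    congr 1
    rw [Matrix.map_apply, MB, Matrix.of_apply, map_sum]
    refine Finset.sum_congr rfl fun f' _ => ?_
    rw [map_mul, aeval_X, aeval_C]
  · have h3 : coeff (fs r.2.1) (frmT c r.1) = c r := coeff_fr _ _
    rw [h3]
    by_cases hr : r.1 = i₀
    · rw [lu, dif_pos hr, zero_mul]
      symm
      refine Finset.sum_eq_zero fun i _ => ?_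
      rw [Matrix.map_apply, MB, Matrix.of_apply]
      simp only
      rw [if_neg (fun h : r.1 = i.1 => i.2 (h.symm.trans hr)), map_zero, zero_mul]
    · rw [lu, dif_neg hr, Finset.sum_eq_single ⟨r.1, hr⟩]
      · rw [Matrix.map_apply, MB, Matrix.of_apply]
        simp only [if_true, aeval_X]
        rw [mul_comm]
      · intro i _ hi
        rw [Matrix.map_apply, MB, Matrix.of_apply]
        simp only
        rw [if_neg (fun h : r.1 = i.1 => hi (Subtype.ext h.symm)), map_zero, zero_mul]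
      · intro h
        exact absurd (Finset.mem_univ _) h

theorem ker_iff {L : Type} [Field L] [CharZero L] (i₀ : ι)
    (c : (Σ i, Mon (n + 1) (e i + 1)) → L)
    (u : (Fin (n + 1) × Fin (n + 1)) ⊕ {i : ι // i ≠ i₀} → L) :
    ((MB n e i₀).map (aeval c)).mulVec u = 0 ↔ ∀ i, EE c (Bu u) (lu u) i = 0 := by
  constructor
  · intro h i
    rw [← frm_coeff (EE_homog c (Bu u) (lu u) i)]
    have h1 : (fun f : Mon (n + 1) (e i + 1) =>
        coeff (fs f.1) (EE c (Bu u) (lu u) i)) = fun _ => 0 := by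
      funext f
      rw [EE_coeff i₀ c u ⟨i, f⟩, h]
      rfl
    rw [h1]
    unfold frm
    exact Finset.sum_eq_zero fun f _ => by rw [C_0, zero_mul]
  · intro h
    funext r
    rw [← EE_coeff, h, coeff_zero]
    rfl

theorem map_det {L : Type} [Field L] [CharZero L] (i₀ : ι)
    (c : (Σ i, Mon (n + 1) (e i + 1)) → L) :
    aeval c ((MB n e i₀).transpose * MB n e i₀).det =
      (((MB n e i₀).map (aeval c)).transpose * (MB n e i₀).map (aeval c)).det := by
  rw [AlgHom.map_det]
  congr 1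
  rw [AlgHom.mapMatrix_apply, Matrix.map_mul, Matrix.transpose_map]

end

theorem pf_FET (hHA : T_HA) : T_FET := by
  classical
  intro k _ _ n ι _ i₀ e c hn1 hn hc A l hl0 hA
  obtain ⟨c0, hc0⟩ := hHA n ι i₀ e hn1 hn
  have hne : ((MB n e i₀).transpose * MB n e i₀).det ≠ 0 := by
    intro h0
    have h1 := map_det i₀ c0
    rw [h0, map_zero] at h1
    obtain ⟨u, hu0, hu⟩ := Matrix.exists_mulVec_eq_zero_iff.2 h1.symm
    have h2 : u ∈ LinearMap.ker
        (((MB n e i₀).map (aeval c0)).transpose * (MB n e i₀).map (aeval c0)).mulVecLin := hu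
    have h2' := Matrix.ker_mulVecLin_transpose_mul_self ((MB n e i₀).map (aeval c0))
    have h2'' : u ∈ LinearMap.ker ((MB n e i₀).map (aeval c0)).mulVecLin := by
      rw [← h2']
      exact h2
    obtain ⟨h3, h4⟩ := hc0 (Bu u) (lu u) (by rw [lu, dif_pos rfl])
      ((ker_iff i₀ c0 u).1 h2'')
    apply hu0
    funext s
    rcases s with ⟨a, b⟩ | i
    · exact congrFun (congrFun h3 a) b
    · have h5 := congrFun h4 i.1
      rw [lu, dif_neg i.2] at h5
      exact h5
  have hne' : (((MB n e i₀).map (aeval c)).transpose * (MB n e i₀).map (aeval c)).det ≠ 0 := by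
    rw [← map_det]
    intro h0
    exact hne (hc (by rw [h0, map_zero]))
  let u : (Fin (n + 1) × Fin (n + 1)) ⊕ {i : ι // i ≠ i₀} → k :=
    Sum.elim (fun p => A p.1 p.2) (fun i => l i.1)
  have hAu : (Bu u : Matrix _ _ k) = A := rfl
  have hlu : lu u = l := by
    funext i
    by_cases hi : i = i₀
    · rw [lu, dif_pos hi, hi, hl0]
    · rw [lu, dif_neg hi]
      rfl
  have hu : ((MB n e i₀).map (aeval c)).mulVec u = 0 := by
    rw [ker_iff, hAu, hlu]
    exact hA
  have hu0 : u = 0 := by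
    by_contra hcon
    apply hne'
    rw [← Matrix.exists_mulVec_eq_zero_iff]
    refine ⟨u, hcon, ?_⟩
    rw [← Matrix.mulVec_mulVec, hu, Matrix.mulVec_zero]
  constructor
  · rw [← hAu, hu0]
    rfl
  · rw [← hlu, hu0]
    funext i
    by_cases hi : i = i₀
    · rw [lu, dif_pos hi]
      rfl
    · rw [lu, dif_neg hi]
      rfl

end Pool.Agent.H25.VMP
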