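import Pool.Agent.H30.VM.TargetsG
import Pool.Agent.H45.CI.HA

/-!
# HA: products of linear forms have no infinitesimal automorphisms (MP_70ba79_ag, log complete
intersections in projective space)

A copy of Pool/Agent/H45/CI/HA.lean with the linear forms `X 0, …, X n, ∑ X q`, `X 1 + m X 0`.
-/

set_option autoImplicit false

namespace Pool.Agent.H25.VMP

open MvPolynomial SC Pool.Agent.H27.LV Pool.Agent.H17.VG Pool.Agent.H30.VM
open Pool.Agent.H17.CI (frmT)
open Pool.Agent.H45.CI (dA dA_apply dA_X main_arg exists_coeff)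

/-- the linear forms -/
noncomputable def Lf (n m : ℕ) : MvPolynomial (Fin (n + 2)) ℚ :=
  if h : m < n + 2 then X ⟨m, h⟩ else
    if m = n + 2 then ∑ q : Fin (n + 2), X q else X 1 + C (m : ℚ) * X 0

theorem Lf_homog (n m : ℕ) : (Lf n m).IsHomogeneous 1 := by
  unfold Lf
  split_ifs
  · exact isHomogeneous_X _ _
  · exact IsHomogeneous.sum _ _ _ fun q _ => isHomogeneous_X _ _
  · refine (isHomogeneous_X _ _).add ?_
    have := (isHomogeneous_C (Fin (n + 2)) (m : ℚ)).mul (isHomogeneous_X ℚ (0 : Fin (n + 2)))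
    simpa using this

theorem eval_Lf_pos {n : ℕ} (q : Fin (n + 2)) {m : ℕ} (hm : m ≠ q.1) :
    0 < eval (fun j : Fin (n + 2) => if j = q then (0 : ℚ) else 1) (Lf n m) := by
  unfold Lf
  split_ifs with h h'
  · rw [eval_X]
    have : (⟨m, h⟩ : Fin (n + 2)) ≠ q := by
      intro h1
      exact hm (congrArg Fin.val h1)
    rw [if_neg this]
    norm_num
  · rw [map_sum]
    obtain ⟨p, hp⟩ : ∃ p : Fin (n + 2), p ≠ q := exists_ne q
    refine Finset.sum_pos' (fun x _ => ?_) ⟨p, Finset.mem_univ _, ?_⟩
    · rw [eval_X]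
      split_ifs <;> norm_num
    · rw [eval_X, if_neg hp]
      norm_num
  · rw [map_add, map_mul, eval_C, eval_X, eval_X]
    have h1 : (0 : ℚ) < m := by
      have : 0 < m := by omega
      exact_mod_cast this
    by_cases hq : (0 : Fin (n + 2)) = q
    · have h2 : ¬ (1 : Fin (n + 2)) = q := by
        rw [← hq]
        simp
      rw [if_pos hq, if_neg h2]
      norm_num
    · rw [if_neg hq]
      have h2 : (0 : ℚ) ≤ if (1 : Fin (n + 2)) = q then (0 : ℚ) else 1 := by
        split_ifs <;> norm_num
      linarith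

theorem eval_Lf_S {n : ℕ} {m : ℕ} (hm : m ≠ n + 2) :
    eval (fun j : Fin (n + 2) => if j = 0 then -((n : ℚ) + 1) else 1) (Lf n m) ≠ 0 := by
  unfold Lf
  have h2 : (0 : ℚ) ≤ n := Nat.cast_nonneg n
  split_ifs with h
  · rw [eval_X]
    split_ifs
    · intro h3
      linarith
    · norm_num
  · rw [map_add, map_mul, eval_C, eval_X, eval_X, if_pos rfl, if_neg (by simp)]
    have h1 : (2 : ℚ) ≤ m := by
      have : 2 ≤ m := by omega
      exact_mod_cast this
    intro h3
    nlinarith

theorem pf_HA : T_HA := by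
  classical
  intro n ι _ i₀ e hn hN
  obtain ⟨n, rfl⟩ : ∃ n', n = n' + 1 := ⟨n - 1, by omega⟩
  obtain ⟨N, hNd⟩ : ∃ N, N = ∑ i, (e i + 1) := ⟨_, rfl⟩
  have hcard : Fintype.card (Σ i, Fin (e i + 1)) = N := by
    rw [Fintype.card_sigma, hNd]
    simp
  obtain ⟨E, -⟩ : ∃ E : (Σ i, Fin (e i + 1)) ≃ Fin N, True :=
    ⟨Fintype.equivFinOfCardEq hcard, trivial⟩
  obtain ⟨F, hF⟩ : ∃ F : ι → MvPolynomial (Fin (n + 2)) ℚ,
      F = fun i => ∏ j : Fin (e i + 1), Lf n (E ⟨i, j⟩).1 := ⟨_, rfl⟩
  have hFh : ∀ i, (F i).IsHomogeneous (e i + 1) := by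
    intro i
    rw [hF]
    have := IsHomogeneous.prod (Finset.univ : Finset (Fin (e i + 1)))
      (fun j => Lf n (E ⟨i, j⟩).1) (fun _ => 1) (fun j _ => Lf_homog n _)
    simpa using this
  obtain ⟨c, hc⟩ := exists_coeff e F hFh
  refine ⟨c, fun A l hl h => ?_⟩
  have hN' : n + 3 ≤ N := by rw [hNd]; exact hN
  -- the equations
  have heq : ∀ i, dA A (∏ j : Fin (e i + 1), Lf n (E ⟨i, j⟩).1) +
      C (l i) * ∏ j : Fin (e i + 1), Lf n (E ⟨i, j⟩).1 = 0 := by
    intro i
    have h1 := h i
    rw [hc i, hF] at h1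
    rw [dA_apply]
    exact h1
  -- the factors
  have hfac : ∀ (m : ℕ), m < n + 3 → ∀ (y : Fin (n + 2) → MvPolynomial (Fin (n + 2)) ℚ)
      (z : Fin (n + 2) → ℚ), aeval y (Lf n m) = 0 → (∀ i, eval z (y i) = z i) →
      (∀ m', m' ≠ m → eval z (Lf n m') ≠ 0) → aeval y (dA A (Lf n m)) = 0 := by
    intro m hm y z h0 hz hne
    obtain ⟨⟨i, j⟩, hij⟩ := E.surjective ⟨m, by omega⟩
    have h1 := main_arg A (fun j : Fin (e i + 1) => Lf n (E ⟨i, j⟩).1) (l i) (heq i) j y
      (by simp only [hij]; exact h0) z hz (by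
        intro j' hj'
        refine hne _ fun h2 => hj' ?_
        have h3 : E ⟨i, j'⟩ = E ⟨i, j⟩ := by
          rw [hij]
          exact Fin.ext h2
        have h4 := E.injective h3
        simpa using h4)
    simp only [hij] at h1
    exact h1
  have heval : ∀ (y : Fin (n + 2) → MvPolynomial (Fin (n + 2)) ℚ) (w : Fin (n + 2) → ℚ)
      (P : MvPolynomial (Fin (n + 2)) ℚ),
      eval w (aeval y P) = eval (fun i => eval w (y i)) P := by
    intro y w P
    induction P using MvPolynomial.induction_on with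
    | C a => simp
    | add p q hp hq => rw [map_add, map_add, map_add, hp, hq]
    | mul_X p i hp => rw [map_mul, map_mul, map_mul, hp, aeval_X, eval_X]
  -- off the diagonal
  have hoff : ∀ (q b : Fin (n + 2)), b ≠ q → A q b = 0 := by
    intro q b hb
    have hLq : Lf n q.1 = X q := by
      unfold Lf
      rw [dif_pos q.2]
    have h1 := hfac q.1 (by omega) (fun i => if i = q then 0 else X i)
      (fun j => if j = q then 0 else 1) (by
        rw [hLq, aeval_X, if_pos rfl]) (by
        intro i
        split_ifs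
        · simp
        · rw [eval_X]; simp [*]) (fun m' hm' => (eval_Lf_pos q hm').ne')
    rw [hLq, dA_X] at h1
    have h2 := congrArg (eval (Pi.single b (1 : ℚ))) h1
    rw [heval, map_zero, map_sum, Finset.sum_eq_single b] at h2
    · rw [map_mul, eval_C, eval_X, if_neg hb, eval_X, Pi.single_eq_same, mul_one] at h2
      exact h2
    · intro b' _ hb'
      rw [map_mul, eval_X]
      split_ifs
      · simp
      · rw [eval_X, Pi.single_eq_of_ne hb', mul_zero]
    · intro h3
      exact absurd (Finset.mem_univ _) h3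
  -- the rows
  have hrow : ∀ q : Fin (n + 2), dA A (X q) = C (A q q) * X q := by
    intro q
    rw [dA_X, Finset.sum_eq_single q]
    · intro b _ hb
      rw [hoff q b hb, C_0, zero_mul]
    · intro h4
      exact absurd (Finset.mem_univ _) h4
  -- the diagonal
  have hdiag : ∀ q : Fin (n + 1), A q.succ q.succ = A 0 0 := by
    intro q
    have hLS : Lf n (n + 2) = X 0 + ∑ q : Fin (n + 1), X q.succ := by
      unfold Lf
      rw [dif_neg (by omega), if_pos rfl, Fin.sum_univ_succ]
    have h1 := hfac (n + 2) (by omega)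
      (fun i => if i = 0 then -∑ q : Fin (n + 1), X q.succ else X i)
      (fun j => if j = 0 then -((n : ℚ) + 1) else 1) (by
        rw [hLS, map_add, map_sum, aeval_X, if_pos rfl]
        have : ∀ q : Fin (n + 1), aeval (fun i : Fin (n + 2) => if i = 0 then
            -∑ q : Fin (n + 1), X q.succ else (X i : MvPolynomial (Fin (n + 2)) ℚ))
            (X q.succ : MvPolynomial (Fin (n + 2)) ℚ) = X q.succ := by
          intro q
          rw [aeval_X, if_neg (Fin.succ_ne_zero q)]
        simp only [this]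
        rw [neg_add_cancel]) (by
        intro i
        split_ifs with hi
        · rw [map_neg, map_sum]
          simp [Fin.succ_ne_zero]
        · rw [eval_X, if_neg hi]) (fun m' hm' => eval_Lf_S hm')
    rw [hLS, map_add, map_sum] at h1
    simp only [hrow] at h1
    have h2 := congrArg (eval (Pi.single q.succ (1 : ℚ))) h1
    rw [heval, map_zero, map_add, map_mul, eval_C, eval_X, if_pos rfl, map_neg, map_sum,
      Finset.sum_eq_single q, eval_X, Pi.single_eq_same, map_sum, Finset.sum_eq_single q,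
      map_mul, eval_C, eval_X, if_neg (Fin.succ_ne_zero q), eval_X, Pi.single_eq_same] at h2
    · linarith
    · intro q' _ hq'
      rw [map_mul, eval_X, if_neg (Fin.succ_ne_zero _), eval_X, Pi.single_eq_of_ne, mul_zero]
      intro h5
      exact hq' (Fin.succ_injective _ h5)
    · intro h4
      exact absurd (Finset.mem_univ _) h4
    · intro q' _ hq'
      rw [eval_X, Pi.single_eq_of_ne]
      intro h5
      exact hq' (Fin.succ_injective _ h5)
    · intro h4
      exact absurd (Finset.mem_univ _) h4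
  have hdg : ∀ q : Fin (n + 2), A q q = A 0 0 := by
    intro q
    rcases Fin.eq_zero_or_eq_succ q with rfl | ⟨q, rfl⟩
    · rfl
    · exact hdiag q
  -- no factor is zero
  have hLne : ∀ m : ℕ, Lf n m ≠ 0 := by
    intro m hm0
    by_cases hm : m = n + 2
    · have h2 := eval_Lf_pos (n := n) (0 : Fin (n + 2)) (m := m) (by
        rw [hm]; simp)
      rw [hm0, map_zero] at h2
      exact lt_irrefl _ h2
    · have h2 := eval_Lf_S (n := n) hm
      rw [hm0, map_zero] at h2
      exact h2 rfl
  -- Euler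
  have heul : ∀ i, A 0 0 * ((e i : ℚ) + 1) + l i = 0 := by
    intro i
    have h1 := heq i
    have hP : (∏ j : Fin (e i + 1), Lf n (E ⟨i, j⟩).1).IsHomogeneous (e i + 1) := by
      have := hFh i
      rw [hF] at this
      exact this
    have hne : (∏ j : Fin (e i + 1), Lf n (E ⟨i, j⟩).1) ≠ 0 :=
      Finset.prod_ne_zero_iff.2 fun j _ => hLne _
    rw [dA_apply] at h1
    have h3 : ∀ a : Fin (n + 2), (∑ b, C (A a b) * X b : MvPolynomial (Fin (n + 2)) ℚ) =
        C (A 0 0) * X a := by
      intro a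
      have := hrow a
      rw [dA_X, hdg a] at this
      exact this
    simp only [h3, mul_assoc] at h1
    rw [← Finset.mul_sum, hP.sum_X_mul_pderiv, nsmul_eq_mul, ← mul_assoc, ← add_mul] at h1
    rcases mul_eq_zero.1 h1 with h4 | h4
    · have h5 : C (A 0 0 * ((e i : ℚ) + 1) + l i) = (0 : MvPolynomial (Fin (n + 2)) ℚ) := by
        rw [← h4]
        simp only [map_add, map_mul, map_natCast, map_one, Nat.cast_add, Nat.cast_one]
      exact C_eq_zero.1 h5
    · exact absurd h4 hne
  have ha : A 0 0 = 0 := by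
    have h1 := heul i₀
    rw [hl, add_zero] at h1
    rcases mul_eq_zero.1 h1 with h2 | h2
    · exact h2
    · have : (0 : ℚ) ≤ e i₀ := Nat.cast_nonneg _
      linarith
  constructor
  · ext a b
    by_cases hb : b = a
    · rw [hb, hdg a, ha]; rfl
    · rw [hoff a b hb]; rfl
  · funext i
    have h1 := heul i
    rw [ha, zero_mul, zero_add] at h1
    exact h1

end Pool.Agent.H25.VMP
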